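import Pool.Agent.H48.FR.Targets

/-!
MP_6a7a6f_gt, module CP: compactness, the quantitative form of the conditions `pair` and `near`.
-/

namespace Pool.Agent.H65.FRCP

open Pool.Agent.H48.FR

/-- the compactness argument -/
lemma key {Y Q : Type} [TopologicalSpace Y] [CompactSpace Y] [TopologicalSpace Q] [CompactSpace Q]
    (f : Y → Q → ℝ) (δ : Y → Q → Q → ℝ) (r D : ℝ) (hr : 0 ≤ r)
    (hf : Continuous fun z : Y × Q => f z.1 z.2)
    (hδ : Continuous fun z : Y × Q × Q => δ z.1 z.2.1 z.2.2)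
    (hD : ∀ y a b, δ y a b ≤ D)
    (h : ∀ y a b, IsMx (f y) a → IsMx (f y) b → δ y a b < r) :
    ∃ K : ℝ, 0 ≤ K ∧ ∀ y a b, IsMx (f y) a → δ y a b ≤ r + K * (f y a - f y b) := by
  have hc1 : ∀ a : Q, Continuous fun z : Y × Q × Q => f z.1 a := fun a =>
    hf.comp (continuous_fst.prodMk continuous_const)
  have hc2 : Continuous fun z : Y × Q × Q => f z.1 z.2.1 :=
    hf.comp (continuous_fst.prodMk (continuous_fst.comp continuous_snd))
  have hc3 : Continuous fun z : Y × Q × Q => f z.1 z.2.2 :=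
    hf.comp (continuous_fst.prodMk (continuous_snd.comp continuous_snd))
  set A : Set (Y × Q × Q) := {z | (∀ a, f z.1 a ≤ f z.1 z.2.1) ∧ r ≤ δ z.1 z.2.1 z.2.2} with hA
  have hAc : IsCompact A := by
    refine IsClosed.isCompact ?_
    refine IsClosed.inter ?_ (isClosed_le continuous_const hδ)
    have h1 : {z : Y × Q × Q | ∀ a, f z.1 a ≤ f z.1 z.2.1} =
        ⋂ a, {z : Y × Q × Q | f z.1 a ≤ f z.1 z.2.1} := by
      ext z
      simp
    change IsClosed {z : Y × Q × Q | ∀ a, f z.1 a ≤ f z.1 z.2.1}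
    rw [h1]
    exact isClosed_iInter fun a => isClosed_le (hc1 a) hc2
  by_cases hne : A.Nonempty
  · obtain ⟨z₀, hz₀, hmin⟩ := hAc.exists_isMinOn hne (hc2.sub hc3).continuousOn
    have hη : 0 < f z₀.1 z₀.2.1 - f z₀.1 z₀.2.2 := by
      by_contra hcon
      have h2 : IsMx (f z₀.1) z₀.2.2 := fun a => by
        have := hz₀.1 a
        linarith
      have h3 := h z₀.1 z₀.2.1 z₀.2.2 hz₀.1 h2
      have h4 := hz₀.2
      linarith
    refine ⟨max D 0 / (f z₀.1 z₀.2.1 - f z₀.1 z₀.2.2), div_nonneg (le_max_right _ _) hη.le, ?_⟩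
    intro y a b ha
    by_cases hm : r ≤ δ y a b
    · have h5 : f z₀.1 z₀.2.1 - f z₀.1 z₀.2.2 ≤ f y a - f y b :=
        hmin (show (y, a, b) ∈ A from ⟨ha, hm⟩)
      have h6 : max D 0 ≤ max D 0 / (f z₀.1 z₀.2.1 - f z₀.1 z₀.2.2) * (f y a - f y b) := by
        have h7 : max D 0 / (f z₀.1 z₀.2.1 - f z₀.1 z₀.2.2) *
            (f z₀.1 z₀.2.1 - f z₀.1 z₀.2.2) = max D 0 := div_mul_cancel₀ _ hη.ne'
        have h8 := mul_le_mul_of_nonneg_left h5 (div_nonneg (le_max_right D 0) hη.le)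
        rw [h7] at h8
        exact h8
      have h9 := hD y a b
      have h10 := le_max_left D 0
      linarith
    · have h11 : 0 ≤ max D 0 / (f z₀.1 z₀.2.1 - f z₀.1 z₀.2.2) * (f y a - f y b) :=
        mul_nonneg (div_nonneg (le_max_right _ _) hη.le) (sub_nonneg.2 (ha b))
      rw [not_le] at hm
      linarith
  · refine ⟨0, le_refl _, fun y a b ha => ?_⟩
    rw [zero_mul, add_zero]
    by_contra hcon
    rw [not_le] at hcon
    exact hne ⟨(y, a, b), ha, hcon.le⟩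

/-- CP. -/
theorem cp : T_CP := by
  intro M S Q _ _ _ _ _ _ Δ ρ₀ hρ₀
  have hD : ∀ a b : M, dist a b ≤ Metric.diam (Set.univ : Set M) := fun a b =>
    Metric.dist_le_diam_of_mem (Bornology.IsBounded.all _) (Set.mem_univ _) (Set.mem_univ _)
  have hcd : Continuous fun X : S => dist Δ.p (Δ.π X) := continuous_const.dist Δ.hπ
  have hne : ∀ X : S, ρ₀ ≤ dist Δ.p (Δ.π X) → Δ.π X ≠ Δ.p := by
    intro X hX h0
    rw [h0, dist_self] at hX
    exact absurd hX (not_le.2 hρ₀)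
  -- the compact set of points away from `p`
  have hE : IsClosed {X : S | ρ₀ ≤ dist Δ.p (Δ.π X)} := isClosed_le continuous_const hcd
  have hEc : CompactSpace {X : S // ρ₀ ≤ dist Δ.p (Δ.π X)} :=
    isCompact_iff_compactSpace.1 hE.isCompact
  obtain ⟨K₁, hK₁, h₁⟩ := key (Y := {X : S // ρ₀ ≤ dist Δ.p (Δ.π X)}) (Q := Q)
    (fun X q => Δ.F X.1 (Δ.σ (dist Δ.p (Δ.π X.1))) q) (fun X _ q => dist (Δ.π X.1) (Δ.y X.1 q))
    Δ.r (Metric.diam (Set.univ : Set M)) Δ.r_pos.le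
    (by
      have hg : Continuous fun z : {X : S // ρ₀ ≤ dist Δ.p (Δ.π X)} × Q =>
          ((z.1.1, Δ.σ (dist Δ.p (Δ.π z.1.1)), z.2) : S × ℝ × Q) := by
        refine (continuous_subtype_val.comp continuous_fst).prodMk ?_
        refine (Δ.hσ.comp (hcd.comp (continuous_subtype_val.comp continuous_fst))).prodMk
          continuous_snd
      exact Δ.hF.comp_continuous hg fun z => hne _ z.1.2)
    (by
      have hg : Continuous fun z : {X : S // ρ₀ ≤ dist Δ.p (Δ.π X)} × Q × Q =>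
          ((z.1.1, z.2.2) : S × Q) :=
        (continuous_subtype_val.comp continuous_fst).prodMk (continuous_snd.comp continuous_snd)
      exact (Δ.hπ.comp (continuous_subtype_val.comp continuous_fst)).dist
        (Δ.hy.comp_continuous hg fun z => hne _ z.1.2))
    (fun X a b => hD _ _)
    (fun X a b _ hb => Δ.near X.1 (hne _ X.2) b hb)
  have hE2 : IsClosed {Z : {X : S // ρ₀ ≤ dist Δ.p (Δ.π X)} × Set.Icc (0 : ℝ) 1 |
      Δ.σ (dist Δ.p (Δ.π Z.1.1)) ≤ Z.2.1} :=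
    isClosed_le (Δ.hσ.comp (hcd.comp (continuous_subtype_val.comp continuous_fst)))
      (continuous_subtype_val.comp continuous_snd)
  have hEc2 : CompactSpace {Z : {X : S // ρ₀ ≤ dist Δ.p (Δ.π X)} × Set.Icc (0 : ℝ) 1 //
      Δ.σ (dist Δ.p (Δ.π Z.1.1)) ≤ Z.2.1} := isCompact_iff_compactSpace.1 hE2.isCompact
  obtain ⟨K₂, hK₂, h₂⟩ := key (Y := {Z : {X : S // ρ₀ ≤ dist Δ.p (Δ.π X)} × Set.Icc (0 : ℝ) 1 //
      Δ.σ (dist Δ.p (Δ.π Z.1.1)) ≤ Z.2.1}) (Q := Q)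
    (fun Z q => Δ.F Z.1.1.1 Z.1.2.1 q) (fun Z a b => dist (Δ.y Z.1.1.1 b) (Δ.y Z.1.1.1 a))
    Δ.r (Metric.diam (Set.univ : Set M)) Δ.r_pos.le
    (by
      have hg : Continuous fun z : {Z : {X : S // ρ₀ ≤ dist Δ.p (Δ.π X)} × Set.Icc (0 : ℝ) 1 //
          Δ.σ (dist Δ.p (Δ.π Z.1.1)) ≤ Z.2.1} × Q =>
          ((z.1.1.1.1, z.1.1.2.1, z.2) : S × ℝ × Q) := by
        fun_prop
      exact Δ.hF.comp_continuous hg fun z => hne _ z.1.1.1.2)
    (by
      have hg1 : Continuous fun z : {Z : {X : S // ρ₀ ≤ dist Δ.p (Δ.π X)} × Set.Icc (0 : ℝ) 1 //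
          Δ.σ (dist Δ.p (Δ.π Z.1.1)) ≤ Z.2.1} × Q × Q =>
          ((z.1.1.1.1, z.2.2) : S × Q) := by
        fun_prop
      have hg2 : Continuous fun z : {Z : {X : S // ρ₀ ≤ dist Δ.p (Δ.π X)} × Set.Icc (0 : ℝ) 1 //
          Δ.σ (dist Δ.p (Δ.π Z.1.1)) ≤ Z.2.1} × Q × Q =>
          ((z.1.1.1.1, z.2.1) : S × Q) := by
        fun_prop
      exact (Δ.hy.comp_continuous hg1 fun z => hne _ z.1.1.1.2).dist
        (Δ.hy.comp_continuous hg2 fun z => hne _ z.1.1.1.2))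
    (fun Z a b => hD _ _)
    (fun Z a b ha hb => Δ.pair Z.1.1.1 (hne _ Z.1.1.2) Z.1.2.1 ⟨Z.2, Z.1.2.2.2⟩ b a hb ha)
  refine ⟨max K₁ K₂, le_max_of_le_left hK₁, fun X hX => ⟨fun a b ha => ?_, fun s hs a b ha => ?_⟩⟩
  · have h3 := h₁ ⟨X, hX⟩ a b ha
    have h4 : K₁ * (Δ.F X (Δ.σ (dist Δ.p (Δ.π X))) a - Δ.F X (Δ.σ (dist Δ.p (Δ.π X))) b) ≤
        max K₁ K₂ * (Δ.F X (Δ.σ (dist Δ.p (Δ.π X))) a - Δ.F X (Δ.σ (dist Δ.p (Δ.π X))) b) :=
      mul_le_mul_of_nonneg_right (le_max_left _ _) (sub_nonneg.2 (ha b))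
    exact h3.trans (by linarith)
  · have hs0 : 0 ≤ s := (Δ.σ_mem _).1.trans hs.1
    have h3 := h₂ ⟨(⟨X, hX⟩, ⟨s, hs0, hs.2⟩), hs.1⟩ a b ha
    have h4 : K₂ * (Δ.F X s a - Δ.F X s b) ≤ max K₁ K₂ * (Δ.F X s a - Δ.F X s b) :=
      mul_le_mul_of_nonneg_right (le_max_right _ _) (sub_nonneg.2 (ha b))
    exact h3.trans (by linarith)

end Pool.Agent.H65.FRCP
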